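import Pool.Agent.N875.K15.Stm
import Pool.Agent.N499.K17.U2

/-!
# K15-2U: the sufficient condition at the places over `2` (helper531), after `N499/K17/U2.lean`
-/

set_option autoImplicit false
set_option linter.unusedVariables false

open NumberField IsDedekindDomain WithZero

namespace Pool.Agent.N531.K15

open scoped Classical

open Pool.Agent.TH841.SH (LocC)
open Pool.Agent.N856.QB (Lo)
open Pool.Agent.N875.K17 (Qd C2)
open Pool.Agent.N875.K15 (LoE S_2U)
open Pool.Agent.N875.X15 (sq_of_mod8)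
open Pool.Agent.N73.QB (Cl Pt0 sum_pt)
open Pool.Agent.N499.K17 (exists_hom2 cl_of_loc pt0_of_cl)

lemma sq8 {c : ℤ} (h : c % 8 = 1) : IsSquare (c : ℚ_[2]) := by
  have h1 : IsSquare (((c : ℤ_[2])) : ℚ_[2]) := by
    apply sq_of_mod8
    rw [map_intCast]
    have h2 : ((8 : ℕ) : ℤ) ∣ c - 1 := by push_cast; omega
    have h3 := (ZMod.intCast_zmod_eq_zero_iff_dvd (c - 1) 8).2 h2
    push_cast at h3
    exact sub_eq_zero.1 h3
  simpa using h1

/-- explicit points -/
lemma mk {a b c d1 d2 : ℤ} (x s s1 s2 : ℚ_[2]) (P P1 P2 : ℤ) (hs : s ≠ 0) (hP : P % 8 = 1)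
    (h : (x - a) * (x - b) * (x - c) = P * s ^ 2) (hP1 : P1 % 8 = 1) (h1 : (x - a) * d1 = P1 * s1 ^ 2)
    (hP2 : P2 % 8 = 1) (h2 : (x - b) * d2 = P2 * s2 ^ 2) : LocC ℚ_[2] a b c d1 d2 := by
  obtain ⟨r, hr⟩ := sq8 hP
  obtain ⟨r1, hr1⟩ := sq8 hP1
  obtain ⟨r2, hr2⟩ := sq8 hP2
  have hP0 : (P : ℚ_[2]) ≠ 0 := by
    have : P ≠ 0 := by omega
    exact_mod_cast this
  have hr0 : r ≠ 0 := by
    rintro rfl
    rw [mul_zero] at hr
    exact hP0 hr
  refine ⟨x, r * s, mul_ne_zero hr0 hs, ?_, ⟨r1 * s1, ?_⟩, ⟨r2 * s2, ?_⟩⟩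
  · rw [h, hr]
    ring
  · rw [h1, hr1]
    ring
  · rw [h2, hr2]
    ring

/-- all the classes `(a, b)`, `a` odd, `b = 1 mod 4` -/
lemma key2 {a b : ℤ} (ha : a % 2 = 1) (hb : b % 4 = 1) : LocC ℚ_[2] 0 (-9) 16 a b := by
  rcases (by omega : b % 8 = 5 ∨ b % 8 = 1) with h | h
  · have e1 : (4 * a + 9) % 8 = 5 := by omega
    have e2 : (a - 4) % 8 = (a + 4) % 8 := by omega
    have e3 : (a * (a - 4)) % 8 = 5 := by
      rcases (by omega : a % 8 = 1 ∨ a % 8 = 3 ∨ a % 8 = 5 ∨ a % 8 = 7) with g | g | g | g <;>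
      · have g' : (a - 4) % 8 = (a % 8 + 4) % 8 := by omega
        rw [Int.mul_emod, g', g]
        norm_num
    refine mk (4 * a) 4 (2 * a) 1 (a * (a - 4) * (4 * a + 9)) 1 ((4 * a + 9) * b) (by norm_num) ?_ ?_
      (by norm_num) ?_ ?_ ?_
    · rw [Int.mul_emod, e3, e1]
      norm_num
    · push_cast
      ring
    · push_cast
      ring
    · rw [Int.mul_emod, e1, h]
      norm_num
    · push_cast
      ring
  · rcases (by omega : a % 8 = 1 ∨ a % 8 = 3 ∨ a % 8 = 5 ∨ a % 8 = 7) with g | g | g | g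
    · refine mk (1 / 16) (1 / 64) (1 / 4) (1 / 4) (145 * (-255)) a (145 * b) (by norm_num)
        (by norm_num) ?_ g ?_ ?_ ?_
      · push_cast
        norm_num
      · push_cast
        ring
      · rw [Int.mul_emod, h]
        norm_num
      · push_cast
        ring
    · refine mk (-5) 2 1 2 105 (-5 * a) b (by norm_num)
        (by norm_num) ?_ ?_ ?_ h ?_
      · push_cast
        norm_num
      · rw [Int.mul_emod, g]
        norm_num
      · push_cast
        ring
      · push_cast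
        ring
    · refine mk (5 / 4) (1 / 8) (1 / 2) (1 / 2) (5 * 41 * (-59)) (5 * a) (41 * b) (by norm_num)
        (by norm_num) ?_ ?_ ?_ ?_ ?_
      · push_cast
        norm_num
      · rw [Int.mul_emod, g]
        norm_num
      · push_cast
        ring
      · rw [Int.mul_emod, h]
        norm_num
      · push_cast
        ring
    · refine mk 7 4 1 4 (-63) (7 * a) b (by norm_num)
        (by norm_num) ?_ ?_ ?_ h ?_
      · push_cast
        norm_num
      · rw [Int.mul_emod, g]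
        norm_num
      · push_cast
        ring
      · push_cast
        ring

/-- a point on the twist, `m = 3 mod 4` -/
lemma even2 {m : ℤ} (h : m % 4 = 3) : ∃ u : ℤ, u % 2 = 1 ∧ LocC ℚ_[2] 0 (-9 * m) (16 * m) (2 * u) 1 := by
  rcases (by omega : m % 8 = 3 ∨ m % 8 = 7) with g | g
  · refine ⟨3, by norm_num, ?_⟩
    refine mk 6 2 6 1 (3 * (3 - 8 * m) * (6 + 9 * m)) 1 (6 + 9 * m) (by norm_num) ?_ ?_
      (by norm_num) ?_ (by omega) ?_
    · rw [Int.mul_emod, (by omega : (6 + 9 * m) % 8 = 1), (by omega : (3 * (3 - 8 * m)) % 8 = 1)]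
      norm_num
    · push_cast
      ring
    · push_cast
      norm_num
    · push_cast
      ring
  · refine ⟨1, by norm_num, ?_⟩
    refine mk 2 2 2 1 ((1 - 8 * m) * (2 + 9 * m)) 1 (2 + 9 * m) (by norm_num) ?_ ?_
      (by norm_num) ?_ (by omega) ?_
    · rw [Int.mul_emod, (by omega : (2 + 9 * m) % 8 = 1), (by omega : (1 - 8 * m) % 8 = 1)]
      norm_num
    · push_cast
      ring
    · push_cast
      norm_num
    · push_cast
      ring

section alg

variable {L : Type} [Field L]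

/-- from the twist by the square `m = ρ²` -/
lemma cl_twist {m ρ n : L} (hm : ρ ^ 2 = m) (hρ : ρ ≠ 0) (h : Cl 0 (-9 * m) (16 * m) n 1) :
    Cl (0 : L) (-9) 16 n 1 := by
  obtain ⟨x, y, hy, he, ⟨s, hs⟩, ⟨t, ht⟩⟩ := h
  subst hm
  refine ⟨x / ρ ^ 2, y / ρ ^ 3, div_ne_zero hy (pow_ne_zero _ hρ), ?_, ⟨s / ρ, ?_⟩, ⟨t / ρ, ?_⟩⟩
  · field_simp
    rw [he]
    ring
  · field_simp
    linear_combination hs
  · field_simp
    linear_combination ht

end alg

theorem t_2U : S_2U := by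
  intro m hm hm1 K _ _ r hQ w hw a b ha hb hC
  obtain ⟨φ⟩ := exists_hom2 w (by exact_mod_cast hw)
  have hch : CharZero (w.adicCompletion K) :=
    charZero_of_injective_algebraMap (algebraMap K (w.adicCompletion K)).injective
  obtain ⟨ρ, hρ⟩ : ∃ ρ : w.adicCompletion K, ρ ^ 2 = (m : w.adicCompletion K) :=
    ⟨algebraMap K _ r, by rw [← map_pow, hQ.hr, map_intCast]⟩
  have hm0 : m ≠ 0 := hm.ne_zero
  have hmL : (m : w.adicCompletion K) ≠ 0 := by exact_mod_cast hm0
  have hρ0 : ρ ≠ 0 := by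
    rintro rfl
    rw [zero_pow two_ne_zero] at hρ
    exact hmL hρ.symm
  -- the first kind
  have key : ∀ a' b' : ℤ, a' % 2 = 1 → b' % 4 = 1 →
      Cl (0 : w.adicCompletion K) (-9) 16 (a' : w.adicCompletion K) (b' : w.adicCompletion K) := by
    intro a' b' h1 h2
    have := cl_of_loc φ (key2 h1 h2)
    simpa using this
  -- replacing the classes
  have sub : ∀ a' b' : ℤ, a' ≠ 0 → b' ≠ 0 → (IsSquare (a' * a) ∨ IsSquare (a' * a * m)) →
      (IsSquare (b' * b) ∨ IsSquare (b' * b * m)) →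
      Cl (0 : w.adicCompletion K) (-9) 16 (a' : w.adicCompletion K) (b' : w.adicCompletion K) →
      LoE K w a b := by
    intro a' b' ha' hb' h1 h2 h
    have g : ∀ x y : ℤ, (IsSquare (x * y) ∨ IsSquare (x * y * m)) →
        IsSquare ((x : w.adicCompletion K) * (y : w.adicCompletion K)) := by
      rintro x y (⟨s, hs⟩ | ⟨s, hs⟩)
      · exact ⟨(s : w.adicCompletion K), by exact_mod_cast hs⟩
      · refine ⟨(s : w.adicCompletion K) / ρ, ?_⟩
        have hs' : (x : w.adicCompletion K) * y * m = s * s := by exact_mod_cast hs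
        rw [← hρ] at hs'
        field_simp
        linear_combination hs'
    have := h.congr (g _ _ h1) (g _ _ h2) (by exact_mod_cast ha') (by exact_mod_cast hb')
    obtain ⟨x, y, hy, he, p, q⟩ := this
    exact ⟨x, y, hy, by simpa using he, by simpa using p, by simpa using q⟩
  obtain ⟨c1, c3, c2⟩ := hC
  have ha0 : a ≠ 0 := ha.ne_zero
  have hb0 : b ≠ 0 := hb.ne_zero
  have sq4 : ∀ n : ℤ, Squarefree n → n % 4 ≠ 0 := by
    intro n hn h
    have h2 : (2 : ℤ) * 2 ∣ n := by omega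
    have := hn 2 h2
    rw [Int.isUnit_iff] at this
    omega
  have hm4 := sq4 m hm
  have ha4 := sq4 a ha
  have hb4 := sq4 b hb
  have oddne : ∀ n : ℤ, n % 2 = 1 → n ≠ 0 := by rintro n h rfl; norm_num at h
  rcases (by omega : m % 4 = 1 ∨ m % 4 = 3 ∨ m % 4 = 2) with h | h | h
  · obtain ⟨h1, h2⟩ := c1 h
    exact sub a b ha0 hb0 (Or.inl ⟨a, rfl⟩) (Or.inl ⟨b, rfl⟩) (key a b (by omega) h2)
  · have hb2 := c3 h
    obtain ⟨b', hb', hbb, hb'0⟩ : ∃ b' : ℤ, b' % 4 = 1 ∧ (IsSquare (b' * b) ∨ IsSquare (b' * b * m)) ∧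
        b' ≠ 0 := by
      rcases (by omega : b % 4 = 1 ∨ b % 4 = 3) with g | g
      · exact ⟨b, g, Or.inl ⟨b, rfl⟩, hb0⟩
      · refine ⟨b * m, ?_, Or.inr ⟨b * m, by ring⟩, mul_ne_zero hb0 hm0⟩
        rw [Int.mul_emod, g, h]
        norm_num
    by_cases ha2 : (2 : ℤ) ∣ a
    · obtain ⟨u, rfl⟩ := ha2
      have hu : u % 2 = 1 := by omega
      obtain ⟨u', hu', h3⟩ := even2 h
      have h4 := cl_of_loc φ h3
      have h5 : Cl (0 : w.adicCompletion K) (-9) 16 ((2 * u' : ℤ) : w.adicCompletion K) 1 := by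
        refine cl_twist hρ hρ0 ?_
        simpa using h4
      have h6 := key (u * u') b' (by rw [Int.mul_emod, hu, hu']; norm_num) hb'
      have hp0 : Pt0 (0 : w.adicCompletion K) (-9) 16 := by
        have := key 1 1 (by norm_num) (by norm_num)
        apply pt0_of_cl
        simpa using this
      have h7 := sum_pt (by norm_num) (by norm_num) (by norm_num) hp0 h5 h6
      refine sub (2 * u' * (u * u')) b' ?_ hb'0 (Or.inl ⟨2 * u' * u, by ring⟩) hbb ?_
      · have := oddne u hu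
        have := oddne u' hu'
        positivity
      · rw [one_mul] at h7
        push_cast at h7 ⊢
        exact h7
    · exact sub a b' ha0 hb'0 (Or.inl ⟨a, rfl⟩) hbb (key a b' (by omega) hb')
  · have hm2 : (2 : ℤ) ∣ m := by omega
    obtain ⟨m', hm'⟩ := hm2
    have hm'2 : m' % 2 = 1 := by omega
    have hmd : m / 2 = m' := by omega
    obtain ⟨a', ha', haa⟩ : ∃ a' : ℤ, a' % 2 = 1 ∧ (IsSquare (a' * a) ∨ IsSquare (a' * a * m)) := by
      by_cases ha2 : (2 : ℤ) ∣ a
      · obtain ⟨u, hu⟩ := ha2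
        refine ⟨u * m', ?_, Or.inr ⟨u * m' * 2, by rw [hu, hm']; ring⟩⟩
        rw [Int.mul_emod, hm'2, (by omega : u % 2 = 1)]
        norm_num
      · exact ⟨a, by omega, Or.inl ⟨a, rfl⟩⟩
    obtain ⟨b', hb', hbb⟩ : ∃ b' : ℤ, b' % 4 = 1 ∧ (IsSquare (b' * b) ∨ IsSquare (b' * b * m)) := by
      rcases c2 ⟨m', hm'⟩ with g | ⟨⟨u, hu⟩, g⟩
      · exact ⟨b, g, Or.inl ⟨b, rfl⟩⟩
      · have hbd : b / 2 = u := by omega
        rw [hbd, hmd] at g
        exact ⟨u * m', g, Or.inr ⟨u * m' * 2, by rw [hu, hm']; ring⟩⟩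
    refine sub a' b' (oddne a' ha') ?_ haa hbb (key a' b' ha' hb')
    rintro rfl
    norm_num at hb'

end Pool.Agent.N531.K15
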